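import Pool.Agent.H77.SSA.GDefs

/-!
SSA, module ADF: the sets with numbers in `J` form an almost disjoint family of the size of `J`.
-/

set_option linter.unusedVariables false
set_option linter.unusedSectionVars false
set_option synthInstance.maxSize 100000

namespace SSA

open SW CU CUR

section
variable {N : Type} [SetStr N] [ZF N]

theorem adf_pin {a b R : N} : PairIn a b R ↔ E (opair a b) R := by
  constructor
  · rintro ⟨z, hz, h⟩
    rw [isOP_iff.1 hz] at h
    exact h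
  · intro h
    exact ⟨_, isOP_iff.2 rfl, h⟩

theorem adf_mem_aset {A x v : N} : E v (aset A x) ↔ E v om ∧ E (opair x v) A := by
  unfold aset
  rw [mem_sep]

theorem adf_mem_afam {A J a : N} : E a (afam A J) ↔ ∃ x, E x J ∧ a = aset A x := by
  unfold afam
  rw [mem_img]

theorem adf_inj {o A Z : N} (h : Ifc N o A Z) {x y : N} (hx : E x o) (hy : E y o)
    (e : aset A x = aset A y) : x = y := by
  by_contra hne
  obtain ⟨m, hm⟩ := h.ad x y hx hy hne
  obtain ⟨n, hn, hA⟩ := h.inf x hx m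
  have h1 : E (nu n) (aset A x) := adf_mem_aset.2 ⟨nu_mem_om n, hA⟩
  rw [e] at h1
  exact hm n hn ⟨hA, (adf_mem_aset.1 h1).2⟩

theorem ssa_adf : ADFStmt := by
  intro N _ _ o A Z J h hJ
  refine ⟨⟨?_, ?_⟩, ?_⟩
  · intro a ha
    obtain ⟨x, hx, rfl⟩ := adf_mem_afam.1 ha
    refine ⟨fun v hv => (adf_mem_aset.1 hv).1, ?_⟩
    intro m hm
    obtain ⟨k, rfl⟩ := h.std m hm
    obtain ⟨n, hn, hA⟩ := h.inf x (hJ x hx) (k + 1)
    exact ⟨nu n, adf_mem_aset.2 ⟨nu_mem_om n, hA⟩, nu_lt (by omega)⟩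
  · intro a b c ha hb hab hc
    obtain ⟨x, hx, rfl⟩ := adf_mem_afam.1 ha
    obtain ⟨y, hy, rfl⟩ := adf_mem_afam.1 hb
    have hxy : x ≠ y := fun e => hab (by rw [e])
    obtain ⟨m, hm⟩ := h.ad x y (hJ x hx) (hJ y hy) hxy
    refine ⟨fun v hv => (adf_mem_aset.1 ((hc v).1 hv).1).1, nu m, nu_mem_om m, ?_⟩
    intro v hv
    obtain ⟨h1, h2⟩ := (hc v).1 hv
    obtain ⟨n, rfl⟩ := h.std v (adf_mem_aset.1 h1).1
    by_contra hlt
    refine hm n ?_ ⟨(adf_mem_aset.1 h1).2, (adf_mem_aset.1 h2).2⟩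
    by_contra hmn
    exact hlt (nu_lt (by omega))
  · refine ⟨gr J (fun x => aset A x), ⟨⟨?_, ?_, ?_⟩, ?_⟩, ?_⟩
    · intro z hz
      obtain ⟨x, hx, rfl⟩ := (mem_gr' (f := fun x : N => aset A x) inferInstance).1 hz
      exact ⟨x, aset A x, hx, adf_mem_afam.2 ⟨x, hx, rfl⟩, isOP_iff.2 rfl⟩
    · intro x hx
      exact ⟨aset A x, adf_pin.2 ((opair_mem_gr (f := fun x : N => aset A x) inferInstance).2
        ⟨hx, rfl⟩)⟩
    · intro x y y' h1 h2
      have e1 := (opair_mem_gr (f := fun x : N => aset A x) inferInstance).1 (adf_pin.1 h1)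
      have e2 := (opair_mem_gr (f := fun x : N => aset A x) inferInstance).1 (adf_pin.1 h2)
      rw [e1.2, e2.2]
    · intro x x' y h1 h2
      have e1 := (opair_mem_gr (f := fun x : N => aset A x) inferInstance).1 (adf_pin.1 h1)
      have e2 := (opair_mem_gr (f := fun x : N => aset A x) inferInstance).1 (adf_pin.1 h2)
      exact adf_inj h (hJ _ e1.1) (hJ _ e2.1) (e1.2.symm.trans e2.2)
    · intro y hy
      obtain ⟨x, hx, rfl⟩ := adf_mem_afam.1 hy
      exact ⟨x, adf_pin.2 ((opair_mem_gr (f := fun x : N => aset A x) inferInstance).2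
        ⟨hx, rfl⟩)⟩

end

end SSA
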