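import Pool.Agent.H33.SSA.ADF

/-!
SSA, module PSI: the space of the almost disjoint family exists and is selectively (a).
-/

set_option linter.unusedVariables false
set_option linter.unusedSectionVars false
set_option synthInstance.maxSize 100000

namespace SSA

open SW CU CUR

section
variable {N : Type} [SetStr N] [ZF N]

theorem psi_ex (B : N) : ∃ X T : N, IsPsiSpace om B X T := by
  let C : N → Prop := fun U => ∀ a : N, E a B → E a U → ∃ G : N, ((∀ z : N, E z G → E z om) ∧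
    ∃ m : N, E m om ∧ ∀ n : N, E n G → E n m) ∧ ∀ n : N, E n a → ¬ E n G → E n U
  have hC : SW.Cl C := by
    show SW.Df (fun w : Fin 1 → N => ∀ a : N, E a B → E a (w 0) → ∃ G : N,
      ((∀ z : N, E z G → E z om) ∧ ∃ m : N, E m om ∧ ∀ n : N, E n G → E n m) ∧
        ∀ n : N, E n a → ¬ E n G → E n (w 0))
    infer_instance
  refine ⟨bun om B, sep (pow (bun om B)) C, ?_, ?_⟩
  · intro z
    exact mem_bun
  · intro U
    rw [mem_sep' hC, mem_pow]
    rfl

/-- the set number `n` of the sequence of closed discrete sets -/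
noncomputable def psiT (H n : N) : N := sep om (fun v => E (opair n v) H ∨ v = n)

theorem psiT_df (H : N) : Fn1 (fun n : N => psiT H n) := by unfold psiT; infer_instance

theorem mem_psiT {H n v : N} : E v (psiT H n) ↔ E v om ∧ (E (opair n v) H ∨ v = n) := by
  unfold psiT
  rw [mem_sep]

theorem ssa_psi (hS : SADStmt) : PSIStmt := by
  intro N _ _ o A Z J h hJ
  obtain ⟨X, T, hX⟩ := psi_ex (afam A J)
  refine ⟨X, T, hX, ?_⟩
  intro s D hs hc hD
  obtain ⟨H, h1, h2⟩ := hS N o A Z J X T s h hJ hX hs hc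
  -- natural numbers are isolated points
  have omX : ∀ v : N, E v om → E v X := fun v hv => (hX.1 v).2 (Or.inl hv)
  have iso : ∀ v : N, E v om → E (sing v) T := by
    intro v hv
    refine (hX.2 _).2 ⟨fun z hz => ?_, ?_⟩
    · rw [mem_sing] at hz
      rw [hz]
      exact omX v hv
    · intro a ha hav
      exfalso
      rw [mem_sing] at hav
      obtain ⟨x, hx, hax⟩ := adf_mem_afam.1 ha
      obtain ⟨k, hk⟩ := h.std v hv
      obtain ⟨n, hn, hA⟩ := h.inf x (hJ x hx) (k + 1)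
      have e1 : E (nu n) a := by
        rw [hax]
        exact adf_mem_aset.2 ⟨nu_mem_om n, hA⟩
      rw [hav, hk] at e1
      obtain ⟨j, hj, e⟩ := (mem_nu k _).1 e1
      have := nu_inj e
      omega
  have omD : ∀ v : N, E v om → E v D := by
    intro v hv
    obtain ⟨x, hx, hxD⟩ := hD.2 (sing v) (iso v hv) ⟨v, mem_sing.2 rfl⟩
    rw [mem_sing] at hx
    rw [← hx]
    exact hxD
  have hfn : Fn1 (fun n : N => psiT H n) := psiT_df H
  have memt : ∀ n A' : N, PairIn n A' (gr om (fun n : N => psiT H n)) ↔ E n om ∧ A' = psiT H n := by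
    intro n A'
    rw [adf_pin, opair_mem_gr hfn]
  refine ⟨gr om (fun n : N => psiT H n), ⟨pow om, ?_, ?_, ?_⟩, ?_, ?_⟩
  · intro z hz
    obtain ⟨n, hn, rfl⟩ := (mem_gr' hfn).1 hz
    exact ⟨n, psiT H n, hn, mem_pow.2 (fun v hv => (mem_psiT.1 hv).1), isOP_iff.2 rfl⟩
  · intro n hn
    exact ⟨psiT H n, (memt _ _).2 ⟨hn, rfl⟩⟩
  · intro n y y' e1 e2
    rw [((memt _ _).1 e1).2, ((memt _ _).1 e2).2]
  · intro n A' hn hA'
    obtain ⟨-, rfl⟩ := (memt _ _).1 hA'
    obtain ⟨j, rfl⟩ := h.std n hn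
    refine ⟨fun v hv => omD v (mem_psiT.1 hv).1, ⟨fun v hv => omX v (mem_psiT.1 hv).1,
      diff X (psiT H (nu j)), ?_, fun z => mem_diff⟩, ?_⟩
    · refine (hX.2 _).2 ⟨fun z hz => (mem_diff.1 hz).1, ?_⟩
      intro a ha haU
      obtain ⟨x, hx, rfl⟩ := adf_mem_afam.1 ha
      obtain ⟨k, hk⟩ := h1 x (hJ x hx) j
      refine ⟨inter (aset A x) (psiT H (nu j)), ⟨fun v hv => (mem_psiT.1 (mem_inter.1 hv).2).1,
        nu (max k (j + 1)), nu_mem_om _, ?_⟩, ?_⟩
      · intro v hv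
        obtain ⟨hv1, hv2⟩ := mem_inter.1 hv
        obtain ⟨hvo, hv3⟩ := mem_psiT.1 hv2
        obtain ⟨i, rfl⟩ := h.std v hvo
        rcases hv3 with hv3 | hv3
        · have : ¬ k ≤ i := fun hki => hk i hki ⟨hv3, (adf_mem_aset.1 hv1).2⟩
          exact nu_lt (by omega)
        · have := nu_inj hv3
          exact nu_lt (by omega)
      · intro v hv hvF
        have hvo := (adf_mem_aset.1 hv).1
        refine mem_diff.2 ⟨omX v hvo, fun hvt => hvF (mem_inter.2 ⟨hv, hvt⟩)⟩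
    · intro v hv
      refine ⟨sing v, iso v (mem_psiT.1 hv).1, fun y => ?_⟩
      rw [mem_sing]
      constructor
      · rintro ⟨e, -⟩
        exact e
      · rintro rfl
        exact ⟨rfl, hv⟩
  · intro x hx
    rcases (hX.1 x).1 hx with hx | hx
    · obtain ⟨b, hb⟩ := hs
      obtain ⟨c, hcs⟩ := hb.2.1 x hx
      obtain ⟨U, hU, hxU⟩ := (hc x c hx hcs).2 x (omX x hx)
      exact ⟨x, c, psiT H x, U, x, hx, hcs, (memt _ _).2 ⟨hx, rfl⟩, hU, hxU, hxU,
        mem_psiT.2 ⟨hx, Or.inr rfl⟩⟩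
    · obtain ⟨x', hx', rfl⟩ := adf_mem_afam.1 hx
      obtain ⟨n, v, c, U, hcs, hU, hxU, hvU, hH⟩ := h2 x' hx'
      exact ⟨nu n, c, psiT H (nu n), U, nu v, nu_mem_om n, hcs, (memt _ _).2 ⟨nu_mem_om n, rfl⟩,
        hU, hxU, hvU, mem_psiT.2 ⟨nu_mem_om v, Or.inl hH⟩⟩

end

end SSA
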