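import Pool.Agent.H33.SSA.ADF

/-!
SSA, module SAD: selectivity for sequences of open covers.
-/

set_option linter.unusedVariables false
set_option linter.unusedSectionVars false
set_option synthInstance.maxSize 100000

namespace SSA

open SW CU CUR

theorem ssa_sad : SADStmt := by
  intro N _ _ o A Z J X T s h hJ hX hs hc
  let C : N → Prop := fun z => ∃ x n m : N, z = opair x (opair n m) ∧ (E x J →
    ∃ c U : N, E (opair n c) s ∧ E U c ∧ E (aset A x) U ∧ ∀ k : N, E k (aset A x) → ¬ E k m → E k U)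
  have hC : SW.Cl C := by
    show SW.Df (fun w : Fin 1 → N => ∃ x n m : N, w 0 = opair x (opair n m) ∧ (E x J →
      ∃ c U : N, E (opair n c) s ∧ E U c ∧ E (aset A x) U ∧
        ∀ k : N, E k (aset A x) → ¬ E k m → E k U))
    infer_instance
  set F : N := sep (prod o (prod om om)) C with hF
  have memF : ∀ (x : N) (n m : ℕ), E (opair x (opair (nu n) (nu m))) F ↔ E x o ∧ (E x J →
      ∃ c U : N, E (opair (nu n) c) s ∧ E U c ∧ E (aset A x) U ∧
        ∀ k : N, E k (aset A x) → ¬ E k (nu m) → E k U) := by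
    intro x n m
    rw [hF, mem_sep' hC]
    constructor
    · rintro ⟨h1, x', n', m', e, h2⟩
      rw [opair_inj, opair_inj] at e
      obtain ⟨rfl, rfl, rfl⟩ := e
      rw [mem_prod'] at h1
      obtain ⟨a, b, ha, hb, e⟩ := h1
      rw [opair_inj] at e
      rw [e.1]
      refine ⟨ha, ?_⟩
      rw [← e.1]
      exact h2
    · rintro ⟨hx, h2⟩
      refine ⟨mem_prod'.2 ⟨x, _, hx, mem_prod'.2 ⟨nu n, nu m, nu_mem_om n, nu_mem_om m, rfl⟩, rfl⟩,
        x, nu n, nu m, rfl, h2⟩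
  have tot : ∀ x, E x o → ∀ n : ℕ, ∃ m : ℕ, E (opair x (opair (nu n) (nu m))) F := by
    intro x hx n
    by_cases hxJ : E x J
    · obtain ⟨b, hb⟩ := hs
      obtain ⟨c, hcs⟩ := hb.2.1 (nu n) (nu_mem_om n)
      have hcov := hc (nu n) c (nu_mem_om n) hcs
      have hmem : E (aset A x) X := (hX.1 _).2 (Or.inr (adf_mem_afam.2 ⟨x, hxJ, rfl⟩))
      obtain ⟨U, hU, hxU⟩ := hcov.2 _ hmem
      obtain ⟨G, hG, hGU⟩ := ((hX.2 U).1 (hcov.1 U hU)).2 _ (adf_mem_afam.2 ⟨x, hxJ, rfl⟩) hxU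
      obtain ⟨m, hm, hGm⟩ := hG.2
      obtain ⟨m, rfl⟩ := h.std m hm
      refine ⟨m, (memF x n m).2 ⟨hx, fun _ => ⟨c, U, adf_pin.1 hcs, hU, hxU, ?_⟩⟩⟩
      intro k hk hkm
      exact hGU k hk (fun hkG => hkm (hGm k hkG))
    · exact ⟨0, (memF x n 0).2 ⟨hx, fun hj => absurd hj hxJ⟩⟩
  obtain ⟨H, h1, h2⟩ := h.sel F tot
  refine ⟨H, h1, ?_⟩
  intro x hx
  obtain ⟨n, m, v, hmv, hF', hH, hA⟩ := h2 x (hJ x hx)
  obtain ⟨c, U, hcs, hU, hxU, hk⟩ := ((memF x n m).1 hF').2 hx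
  refine ⟨n, v, c, U, adf_pin.2 hcs, hU, hxU, ?_, hH⟩
  refine hk (nu v) (adf_mem_aset.2 ⟨nu_mem_om v, hA⟩) ?_
  intro hlt
  obtain ⟨j, hj, e⟩ := (mem_nu m _).1 hlt
  have := nu_inj e
  omega

end SSA
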